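import Pool.Agent.P8H82.PH.Stm

/-! Package SUM of project PH. -/

set_option autoImplicit false

namespace Pool.Agent.P8H53.PH

open Filter Topology MeasureTheory Pool.Agent.P8H82.PH

theorem sum_thm : S_HYP → S_SUM := by
  intro hyp ι N h θ A B c x n hfin b w hN hθ hc hw hb hA hB
  -- the two sums
  have h1 := hyp ι N (fun i => w (x - h i)) θ B hfin hN (fun i => hw _) hθ hB n
  have hA' : Tendsto (fun X : ℝ => (∑ i ∈ (hfin X).toFinset, (1 : ℝ)) / X ^ θ) atTop (𝓝 A) := by
    refine hA.congr fun X => ?_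
    rw [Finset.sum_const, nsmul_eq_mul, mul_one, Set.ncard_eq_toFinset_card _ (hfin X)]
  have h2 := hyp ι N (fun _ => 1) θ A hfin hN (fun i => zero_le_one) hθ hA' n
  set S : ℝ → ℝ := fun X => ∑ i ∈ (hfin X).toFinset,
    w (x - h i) * ((X / N i) ^ θ * Real.log (X / N i) ^ n) with hS
  set R : ℝ → ℝ := fun X => ∑ i ∈ (hfin X).toFinset,
    (1 : ℝ) * ((X / N i) ^ θ * Real.log (X / N i) ^ n) with hR
  set D : ℝ → ℝ := fun X => X ^ θ * Real.log X ^ (n + 1) with hD
  -- the number of terms is negligible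
  have h3 : Tendsto (fun X : ℝ => (({i | N i ≤ X}.ncard : ℝ)) / D X) atTop (𝓝 0) := by
    have e1 : Tendsto (fun X : ℝ => (Real.log X ^ (n + 1))⁻¹) atTop (𝓝 0) :=
      ((tendsto_pow_atTop (Nat.succ_ne_zero n)).comp Real.tendsto_log_atTop).inv_tendsto_atTop
    have e2 := hA.mul e1
    rw [mul_zero] at e2
    refine e2.congr fun X => ?_
    rw [hD, ← div_eq_mul_inv, div_div]
  have hDpos : ∀ᶠ X : ℝ in atTop, 0 < D X := by
    filter_upwards [eventually_gt_atTop 1] with X hX
    have : 0 < Real.log X := Real.log_pos hX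
    positivity
  -- the error
  have key : Tendsto (fun X : ℝ => (∑ i ∈ (hfin X).toFinset, b (X / N i) (x - h i)) / D X -
      c * (S X / D X)) atTop (𝓝 0) := by
    rw [Metric.tendsto_nhds]
    intro ε hε
    set Q : ℝ := A * θ / (n + 1) with hQ
    obtain ⟨δ, hδ, hδ2⟩ : ∃ δ : ℝ, 0 < δ ∧ δ * (|Q| + 1) ≤ ε / 2 :=
      ⟨ε / 2 / (|Q| + 1), by positivity, by
        rw [div_mul_cancel₀]
        positivity⟩
    obtain ⟨C, hC⟩ := hb δ hδ
    have e1 : ∀ᶠ X : ℝ in atTop, R X / D X < |Q| + 1 := by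
      refine h2.eventually (gt_mem_nhds ?_)
      have := le_abs_self Q
      linarith
    have e2 : ∀ᶠ X : ℝ in atTop, C * ((({i | N i ≤ X}.ncard : ℝ)) / D X) < ε / 2 := by
      have := h3.const_mul C
      rw [mul_zero] at this
      exact this.eventually (gt_mem_nhds (by positivity))
    filter_upwards [e1, e2, hDpos] with X d1 d2 d3
    rw [Real.dist_eq, sub_zero, mul_div_assoc', ← sub_div, abs_div, abs_of_pos d3,
      div_lt_iff₀ d3]
    have f1 : (∑ i ∈ (hfin X).toFinset, b (X / N i) (x - h i)) - c * S X =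
        ∑ i ∈ (hfin X).toFinset, (b (X / N i) (x - h i) -
          c * w (x - h i) * ((X / N i) ^ θ * Real.log (X / N i) ^ n)) := by
      rw [Finset.sum_sub_distrib, hS, Finset.mul_sum]
      congr 1
      exact Finset.sum_congr rfl fun i _ => by ring
    rw [f1]
    have f2 : |∑ i ∈ (hfin X).toFinset, (b (X / N i) (x - h i) -
          c * w (x - h i) * ((X / N i) ^ θ * Real.log (X / N i) ^ n))| ≤
        ∑ i ∈ (hfin X).toFinset, (δ * ((1 : ℝ) * ((X / N i) ^ θ * Real.log (X / N i) ^ n)) + C) := by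
      refine (Finset.abs_sum_le_sum_abs _ _).trans (Finset.sum_le_sum fun i hi => ?_)
      have hi' : N i ≤ X := by simpa using hi
      have hNi : 0 < N i := lt_of_lt_of_le one_pos (hN i)
      rw [one_mul]
      exact hC (X / N i) (by rwa [le_div_iff₀ hNi, one_mul]) (x - h i)
    rw [Finset.sum_add_distrib, ← Finset.mul_sum, Finset.sum_const, nsmul_eq_mul,
      ← Set.ncard_eq_toFinset_card _ (hfin X)] at f2
    have f3 : R X < (|Q| + 1) * D X := (div_lt_iff₀ d3).1 d1
    have f4 : (({i | N i ≤ X}.ncard : ℝ)) * C < ε / 2 * D X := by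
      have : C * ((({i | N i ≤ X}.ncard : ℝ)) / D X) = (({i | N i ≤ X}.ncard : ℝ)) * C / D X := by
        ring
      rw [this] at d2
      exact (div_lt_iff₀ d3).1 d2
    have f5 : δ * R X ≤ ε / 2 * D X := by
      calc δ * R X ≤ δ * ((|Q| + 1) * D X) := mul_le_mul_of_nonneg_left f3.le hδ.le
        _ = δ * (|Q| + 1) * D X := by ring
        _ ≤ ε / 2 * D X := mul_le_mul_of_nonneg_right hδ2 d3.le
    calc _ ≤ _ := f2
      _ < ε / 2 * D X + ε / 2 * D X := add_lt_add_of_le_of_lt f5 f4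
      _ = ε * D X := by ring
  have h4 := key.add (h1.const_mul c)
  rw [zero_add] at h4
  have e : c * (B * θ / (↑n + 1)) = c * B * θ / (n + 1) := by ring
  rw [e] at h4
  refine h4.congr fun X => ?_
  ring

end Pool.Agent.P8H53.PH
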